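import Pool.Agent.H2.NL.Basic
import Pool.Agent.H2.NL.Targets2

/-!
# Row CAL (board nil_modules)
-/

set_option autoImplicit false

open Matrix Pool.Agent.H2.NL Pool.Agent.H64.CC

namespace Pool.Agent.H51.NL

private theorem opw_one {K : Type} [Field K] {I : Type} [Fintype I] (η : Matrix I I K)
    (t : List I → K) (a b : I) : opw η 1 t [a] [b] = ∑ x, t [a, x] * η x b := by
  unfold opw
  let e : List.Vector I 1 ≃ I :=
    { toFun := fun v => v.head
      invFun := fun x => ⟨[x], rfl⟩
      left_inv := by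
        rintro ⟨l, hl⟩
        obtain ⟨x, rfl⟩ := List.length_eq_one_iff.1 hl
        rfl
      right_inv := fun x => rfl }
  refine Fintype.sum_equiv e _ _ ?_
  rintro ⟨l, hl⟩
  obtain ⟨x, rfl⟩ := List.length_eq_one_iff.1 hl
  change t ([a] ++ [x]) * (List.zipWith (fun a b => η a b) [x].reverse [b]).prod =
    t [a, x] * η x b
  simp

theorem pf_CAL (hTRF : T_TRF) : T_CAL := by
  intro K _ _ W m T P ρ hρ U n n' D
  have hpar : ∀ a b, D.j a b ≠ 0 → W.par T a = D.F.o b := by
    intro a b h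
    rw [D.o_eq b, ← D.j_deg a b h]
    rfl
  have hpar2 : ∀ b a, D.i b a ≠ 0 → D.F.o b = W.par T a := by
    intro b a h
    rw [D.o_eq b, D.i_deg b a h]
    rfl
  refine hTRF K (Fin (W.rk T)) (Fin n ⊕ Fin n') (W.par T) P.form P.form⁻¹
    P.toPowerData.classes D.F.o D.F.η D.F.ω D.j D.i P.calculus hpar hpar2 D.ij D.form ?_
  obtain ⟨t, ht, hρt⟩ := (P.graph_one ρ).1 hρ
  have hX : (Matrix.of fun a x => t [a, x]) * P.form = ρ := by
    rw [hρt]
    ext a b
    rw [Matrix.mul_apply]
    simp only [Matrix.of_apply]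
    rw [opw_one]
  have h1 : (D.j * D.F.ω * D.jᵀ) * P.form = (Matrix.of fun a x => t [a, x]) * P.form := by
    rw [hX]
    exact D.om
  have h2 : D.j * D.F.ω * D.jᵀ = Matrix.of fun a x => t [a, x] :=
    P.form_unit.mul_left_injective h1
  rw [h2]
  refine P.calculus.congr 1 t _ ht ?_
  intro w hw
  match w, hw with
  | [a, b], _ => rfl

end Pool.Agent.H51.NL
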